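import Pool.Agent.Helper96.MP.Defs

set_option autoImplicit false

namespace Pool.Agent.Helper96.MP

open Complex MeasureTheory Filter Topology

theorem dimo_den {p q r s : ℤ} (h : 0 < p * s - q * r) {z : ℂ} (hz : z ∈ UH) :
    (r : ℂ) * z + (s : ℂ) ≠ 0 := by
  intro h0
  have h1 := congrArg Complex.im h0
  simp only [Complex.add_im, Complex.mul_im, Complex.intCast_re, Complex.intCast_im, zero_mul,
    add_zero, Complex.zero_im] at h1
  have hz' : z.im ≠ 0 := ne_of_gt hz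
  have hr : (r : ℝ) = 0 := by
    rcases mul_eq_zero.mp h1 with h2 | h2
    · exact h2
    · exact absurd h2 hz'
  have hr' : r = 0 := by exact_mod_cast hr
  rw [hr'] at h0
  simp only [Int.cast_zero, zero_mul, zero_add] at h0
  have hs : s = 0 := by exact_mod_cast h0
  rw [hr', hs] at h
  simp at h

theorem dimo_im {p q r s : ℤ} (h : 0 < p * s - q * r) {z : ℂ} (hz : z ∈ UH) :
    mo p q r s z ∈ UH := by
  have hd := dimo_den h hz
  have hn : 0 < Complex.normSq ((r : ℂ) * z + (s : ℂ)) := Complex.normSq_pos.mpr hd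
  have hz' : 0 < z.im := hz
  have h' : (0 : ℝ) < p * s - q * r := by exact_mod_cast h
  show 0 < (mo p q r s z).im
  unfold mo
  rw [Complex.div_im, ← sub_div]
  apply div_pos _ hn
  have : ((p : ℂ) * z + (q : ℂ)).im * ((r : ℂ) * z + (s : ℂ)).re -
      ((p : ℂ) * z + (q : ℂ)).re * ((r : ℂ) * z + (s : ℂ)).im = (p * s - q * r) * z.im := by
    simp only [Complex.add_im, Complex.mul_im, Complex.intCast_re, Complex.intCast_im, zero_mul,
      add_zero, Complex.add_re, Complex.mul_re, sub_zero]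
    ring
  rw [this]
  exact mul_pos h' hz'

theorem dimo_uni (N : ℕ) {p x q y : ℤ} (h : p * y - x * q = 1) : Uni N q y := by
  unfold Uni
  have h1 : Int.gcd q y = 1 := by
    rw [← Int.isCoprime_iff_gcd_eq_one]
    exact ⟨-x, p, by linarith⟩
  rw [h1]
  simp

theorem dimo_ev {N : ℕ} {V : Type} [Zero V] (v : PN N → V) {c d : ℤ} (h : Uni N c d) :
    ev v c d = v (Quotient.mk (sPN N) ⟨(c, d), h⟩) := by
  unfold ev
  rw [dif_pos h]

/-! ### linearity -/

theorem dimo_qs_lin (b b' : ℕ → ℂ) (c : ℂ) (τ : ℂ)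
    (h : Summable (fun k : ℕ => b k * exp (2 * (Real.pi : ℂ) * I * (k : ℂ) * τ)))
    (h' : Summable (fun k : ℕ => b' k * exp (2 * (Real.pi : ℂ) * I * (k : ℂ) * τ))) :
    qs (fun n => b n - c * b' n) τ = qs b τ - c * qs b' τ := by
  unfold qs
  rw [← tsum_mul_left, ← (h.tsum_sub (h'.mul_left c))]
  apply tsum_congr
  intro k
  ring

theorem dimo_cusp_lin {M : ℕ} {b b' : ℕ → ℂ} (hb : Cusp M b) (hb' : Cusp M b') (c : ℂ) :
    Cusp M (fun n => b n - c * b' n) := by
  have hs : ∀ τ : ℂ, 0 < τ.im → Summable (fun k : ℕ => (b k - c * b' k) *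
      exp (2 * (Real.pi : ℂ) * I * (k : ℂ) * τ)) := by
    intro τ hτ
    have := (hb.sum τ hτ).sub ((hb'.sum τ hτ).mul_left c)
    refine this.congr ?_
    intro k
    ring
  refine ⟨hs, ?_, ?_⟩
  · intro τ hτ p q r s h1 h2
    have hm : 0 < (((p : ℂ) * τ + (q : ℂ)) / ((r : ℂ) * τ + (s : ℂ))).im :=
      dimo_im (p := p) (q := q) (r := r) (s := s) (by rw [h1]; norm_num) hτ
    rw [dimo_qs_lin b b' c _ (hb.sum _ hm) (hb'.sum _ hm),
      dimo_qs_lin b b' c _ (hb.sum _ hτ) (hb'.sum _ hτ), hb.inv τ hτ p q r s h1 h2,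
      hb'.inv τ hτ p q r s h1 h2]
    ring
  · obtain ⟨B, hB⟩ := hb.bdd
    obtain ⟨B', hB'⟩ := hb'.bdd
    refine ⟨B + ‖c‖ * B', ?_⟩
    intro τ hτ
    rw [dimo_qs_lin b b' c _ (hb.sum _ hτ) (hb'.sum _ hτ)]
    calc τ.im * ‖qs b τ - c * qs b' τ‖ ≤ τ.im * (‖qs b τ‖ + ‖c‖ * ‖qs b' τ‖) := by
          apply mul_le_mul_of_nonneg_left _ hτ.le
          refine (norm_sub_le _ _).trans ?_
          rw [norm_mul]
      _ = τ.im * ‖qs b τ‖ + ‖c‖ * (τ.im * ‖qs b' τ‖) := by ring
      _ ≤ B + ‖c‖ * B' := add_le_add (hB τ hτ) (mul_le_mul_of_nonneg_left (hB' τ hτ) (norm_nonneg _))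

theorem dimo_nebot : (comap Complex.im (atTop : Filter ℝ)).NeBot :=
  atTop_neBot.comap_of_surj Complex.im_surjective

theorem dimo_evUH : ∀ᶠ z : ℂ in comap Complex.im (atTop : Filter ℝ), z ∈ UH :=
  tendsto_comap.eventually (eventually_gt_atTop 0)

theorem dimo_det {x y : ℤ} (h : x ≠ 0 ∨ y ≠ 0) : 0 < x * x - (-y) * y := by
  rcases h with h | h
  · have : 0 < x * x := mul_self_pos.mpr h
    have : 0 ≤ y * y := mul_self_nonneg y
    linarith
  · have : 0 < y * y := mul_self_pos.mpr h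
    have : 0 ≤ x * x := mul_self_nonneg x
    linarith

theorem dimo_FC_lin (hQDIF : ST_QDIF) (hFLIM : ST_FLIM) {M : ℕ} (hM : 1 ≤ M) {b b' : ℕ → ℂ}
    (hb : Cusp M b) (hb' : Cusp M b') (c : ℂ) {x y : ℤ} (h : x ≠ 0 ∨ y ≠ 0) :
    FC (fun n => b n - c * b' n) x y = FC b x y - c * FC b' x y := by
  have hd := dimo_det h
  have h1 := ((hFLIM M _ hM (dimo_cusp_lin hb hb' c)).1 x (-y) y x (by linarith)).1
  have h2 := ((hFLIM M b hM hb).1 x (-y) y x (by linarith)).1
  have h3 := ((hFLIM M b' hM hb').1 x (-y) y x (by linarith)).1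
  have h4 := h2.sub (h3.const_mul c)
  have := dimo_nebot
  refine tendsto_nhds_unique h1 (h4.congr' ?_)
  filter_upwards [dimo_evUH] with z hz
  have hm : mo x (-y) y x z ∈ UH := dimo_im (by linarith) hz
  unfold Fs
  have s1 := (hQDIF M b hM hb).2.2.2.1 _ hm
  have s2 := (hQDIF M b' hM hb').2.2.2.1 _ hm
  rw [← tsum_mul_left, ← (s1.tsum_sub (s2.mul_left c))]
  apply tsum_congr
  intro k
  ring

/-! ### Hecke operators on the values at cusps -/

theorem dimo_Tn_pos {l : ℕ} (hl : 1 ≤ l) {t : ℕ × ℕ × ℕ} (ht : t ∈ Tn l) :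
    0 < t.1 ∧ 0 < t.2.2 := by
  unfold Tn at ht
  rw [Finset.mem_filter] at ht
  obtain ⟨-, h1, h2⟩ := ht
  have hne : t.1 * t.2.2 ≠ 0 := by omega
  constructor
  · exact Nat.pos_of_ne_zero (fun h => hne (by rw [h]; simp))
  · exact Nat.pos_of_ne_zero (fun h => hne (by rw [h]; simp))

theorem dimo_Tl {l : ℕ} (hl : l.Prime) (b : ℕ → ℂ) :
    (fun r => ∑ e ∈ (Nat.gcd l r).divisors, (e : ℂ) * b (l * r / e ^ 2)) = Tl l b := by
  funext r
  unfold Tl
  by_cases h : l ∣ r
  · rw [if_pos h, Nat.gcd_eq_left h, Nat.Prime.divisors hl,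
      Finset.sum_pair hl.one_lt.ne]
    obtain ⟨r', rfl⟩ := h
    have h1 : l * (l * r') / l ^ 2 = r' := by
      rw [← mul_assoc, ← sq]
      exact Nat.mul_div_cancel_left _ (pow_pos hl.pos 2)
    have h2 : l * r' / l = r' := Nat.mul_div_cancel_left _ hl.pos
    rw [h1, h2]
    simp
  · rw [if_neg h]
    have h1 : Nat.gcd l r = 1 := (Nat.Prime.coprime_iff_not_dvd hl).mpr h
    rw [h1]
    simp

theorem dimo_hecke (hFLIM : ST_FLIM) (hTF : ST_TF) (hHECKE : ST_HECKE) {M l : ℕ}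
    (hM : 1 ≤ M) (hl : l.Prime) (hlM : ¬ l ∣ M) {b : ℕ → ℂ} (hb : Cusp M b) {x y : ℤ}
    (h : x ≠ 0 ∨ y ≠ 0) :
    ∑ t ∈ Tn l, FC b (t.1 * x + t.2.1 * y) (t.2.2 * y) = FC (Tl l b) x y := by
  have hd := dimo_det h
  have hl1 : 1 ≤ l := hl.one_lt.le
  have h1 := ((hFLIM M _ hM (hHECKE M l b hM hl hlM hb)).1 x (-y) y x (by linarith)).1
  have h2 : Tendsto (fun z : ℂ => ∑ t ∈ Tn l, Fs b (mo (t.1 * x + t.2.1 * y)
      (t.1 * (-y) + t.2.1 * x) (t.2.2 * y) (t.2.2 * x) z)) (comap Complex.im atTop)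
      (𝓝 (∑ t ∈ Tn l, FC b (t.1 * x + t.2.1 * y) (t.2.2 * y))) := by
    apply tendsto_finsetSum
    intro t ht
    obtain ⟨p1, p2⟩ := dimo_Tn_pos hl1 ht
    refine ((hFLIM M b hM hb).1 _ _ _ _ ?_).1
    have e : ((t.1 : ℤ) * x + t.2.1 * y) * (t.2.2 * x) - (t.1 * (-y) + t.2.1 * x) * (t.2.2 * y)
        = (t.1 * t.2.2) * (x * x - (-y) * y) := by ring
    rw [e]
    apply mul_pos _ hd
    have q1 : (0 : ℤ) < t.1 := by exact_mod_cast p1
    have q2 : (0 : ℤ) < t.2.2 := by exact_mod_cast p2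
    exact mul_pos q1 q2
  have := dimo_nebot
  refine tendsto_nhds_unique h2 (h1.congr' ?_)
  filter_upwards [dimo_evUH] with z hz
  have hm : mo x (-y) y x z ∈ UH := dimo_im (by linarith) hz
  have h3 := hTF M l b hM hl1 hb _ hm
  rw [dimo_Tl hl] at h3
  rw [← h3]
  apply Finset.sum_congr rfl
  intro t ht
  obtain ⟨p1, p2⟩ := dimo_Tn_pos hl1 ht
  congr 1
  have hden : (y : ℂ) * z + (x : ℂ) ≠ 0 := dimo_den (p := x) (q := -y) (by linarith) hz
  have ht2 : (t.2.2 : ℂ) ≠ 0 := by exact_mod_cast p2.ne'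
  unfold mo
  push_cast
  have hden2 : (t.2.2 : ℂ) * (y : ℂ) * z + (t.2.2 : ℂ) * (x : ℂ) ≠ 0 := by
    have : (t.2.2 : ℂ) * (y : ℂ) * z + (t.2.2 : ℂ) * (x : ℂ) = t.2.2 * ((y : ℂ) * z + x) := by ring
    rw [this]
    exact mul_ne_zero ht2 hden
  rw [div_eq_div_iff ht2 hden2]
  have e1 : ((x : ℂ) * z + -(y : ℂ)) / ((y : ℂ) * z + (x : ℂ)) * ((y : ℂ) * z + (x : ℂ))
      = (x : ℂ) * z + -(y : ℂ) := div_mul_cancel₀ _ hden
  linear_combination ((t.1 : ℂ) * (t.2.2 : ℂ)) * e1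

/-! ### the main argument -/

/-- every solution is the real part of a complex multiple of the Manin symbols -/
theorem dimo_core (hFAREY : ST_FAREY) (hCONN : ST_CONN) (hES : ST_ES) (hINJ : ST_INJ)
    (hFLIM : ST_FLIM) (hTF : ST_TF) (hTILE : ST_TILE) (hPERM : ST_PERM) (hHECKE : ST_HECKE)
    (hMONE : ST_MONE) (hBDRY : ST_BDRY) (hSTRICT : ST_STRICT) (hSURJ : ST_SURJ)
    (hQDIF : ST_QDIF) {N : ℕ} {a : ℕ → ℤ} {v : PN N → ℂ} (hN : 1 ≤ N) (ha : Newform N a)
    (hv : ∀ p x q y : ℤ, p * y - x * q = 1 →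
      ev v q y = FC (fun k => (a k : ℂ)) p q - FC (fun k => (a k : ℂ)) x y)
    {ε : ℝ} {w : PN N → ℝ} (hw : Eall N a ε w) : ∃ κ : ℂ, ∀ x, w x = (κ * v x).re := by
  obtain ⟨C, hC0, hCE, hCe⟩ := hFAREY N hN w hw.1.two hw.1.three
  obtain ⟨g, hg, hgC⟩ := hES N C hN hC0 hCE
  have hFg := hFLIM N g hN hg
  -- the difference
  let D : ℤ → ℤ → ℝ := fun x y => C x y - (FC g x y).re
  have hD0 : Hom0 D := by
    intro k p q hk
    simp only [D]
    rw [hC0 k p q hk, hFg.2.1 k p q hk]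
  have hDinv : ∀ p q r s : ℤ, G0 N p q r s → ∀ x y : ℤ, (x ≠ 0 ∨ y ≠ 0) →
      D (p * x + q * y) (r * x + s * y) = D x y := by
    intro p q r s hG x y hxy
    simp only [D]
    rw [hCE p q r s hG x y hxy, hFg.2.2.1 p q r s hG x y hxy, Complex.add_re, hgC p q r s hG]
    ring
  -- Hecke relation for `C`
  have hCH : ∀ l : ℕ, l.Prime → ¬ l ∣ N → l ≤ N ^ 6 → ∀ x y : ℤ, (x ≠ 0 ∨ y ≠ 0) →
      ∑ t ∈ Tn l, C (t.1 * x + t.2.1 * y) (t.2.2 * y) - a l * C x y =
        ∑ t ∈ Tn l, C (t.1 * 1 + t.2.1 * 0) (t.2.2 * 0) - a l * C 1 0 := by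
    intro l hl hlN hl6 x y hxy
    let K : ℤ → ℤ → ℝ := fun x y => ∑ t ∈ Tn l, C (t.1 * x + t.2.1 * y) (t.2.2 * y) - a l * C x y
    have hK0 : Hom0 K := by
      intro k p q hk
      simp only [K]
      rw [hC0 k p q hk]
      congr 1
      apply Finset.sum_congr rfl
      intro t _
      have h9 := hC0 k (t.1 * p + t.2.1 * q) (t.2.2 * q) hk
      refine Eq.trans ?_ h9
      congr 1 <;> ring
    have hKe : ∀ p x q y : ℤ, p * y - x * q = 1 → K p q - K x y ∈ (⊥ : AddSubgroup ℝ) := by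
      intro p x q y h
      rw [AddSubgroup.mem_bot]
      have hcop : Nat.Coprime l N := (Nat.Prime.coprime_iff_not_dvd hl).mpr hlN
      have h1 := hTILE ℝ N l hN hl.one_lt.le hcop C w hC0 hCe p x q y h
      have h2 := (hw.2 l hl hlN hl6).1 q y (dimo_uni N h)
      rw [h1, hCe p x q y h, Finset.sum_sub_distrib] at h2
      simp only [K]
      linarith
    have := hCONN ℝ ⊥ K hK0 hKe x y hxy
    rw [AddSubgroup.mem_bot] at this
    simp only [K] at this
    linarith
  -- `g` is an eigenform for small primes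
  have hgE : ∀ l : ℕ, l.Prime → ¬ l ∣ N → l ≤ N ^ 6 → ∀ n, Tl l g n = (a l : ℂ) * g n := by
    intro l hl hlN hl6
    have hT := hHECKE N l g hN hl hlN hg
    have hg' := dimo_cusp_lin hT hg (a l : ℂ)
    have hcop : Nat.Coprime l N := (Nat.Prime.coprime_iff_not_dvd hl).mpr hlN
    have key := hINJ N _ hN hg' (by
      intro p q r s hG
      have hdet : p * s - q * r = 1 := hG.1
      have hpr : p ≠ 0 ∨ r ≠ 0 := by
        by_contra hcon
        push Not at hcon
        rw [hcon.1, hcon.2] at hdet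
        simp at hdet
      have h10 : (1 : ℤ) ≠ 0 ∨ (0 : ℤ) ≠ 0 := Or.inl one_ne_zero
      rw [dimo_FC_lin hQDIF hFLIM hN hT hg _ hpr, dimo_FC_lin hQDIF hFLIM hN hT hg _ h10,
        ← dimo_hecke hFLIM hTF hHECKE hN hl hlN hg hpr,
        ← dimo_hecke hFLIM hTF hHECKE hN hl hlN hg h10]
      -- invariance of the sums of `D`
      have hDsum : ∑ t ∈ Tn l, D (t.1 * p + t.2.1 * r) (t.2.2 * r)
          = ∑ t ∈ Tn l, D (t.1 * 1 + t.2.1 * 0) (t.2.2 * 0) := by
        obtain ⟨e, he⟩ := hPERM N l hN hl.one_lt.le hcop p q r s hG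
        rw [← Finset.sum_coe_sort (Tn l), ← Finset.sum_coe_sort (Tn l)
          (fun t => D (t.1 * 1 + t.2.1 * 0) (t.2.2 * 0))]
        rw [← Equiv.sum_comp e (fun t : {t // t ∈ Tn l} =>
          D (t.1.1 * 1 + t.1.2.1 * 0) (t.1.2.2 * 0))]
        apply Finset.sum_congr rfl
        intro t _
        obtain ⟨p', q', r', s', hG', h1, h2, h3, h4⟩ := he t
        rw [h1, h3]
        obtain ⟨p1, p2⟩ := dimo_Tn_pos hl.one_lt.le (e t).2
        have h5 := hDinv p' q' r' s' hG' ((e t).1.1 * 1 + (e t).1.2.1 * 0) ((e t).1.2.2 * 0)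
          (Or.inl (by
            have : ((e t).1.1 : ℤ) ≠ 0 := by exact_mod_cast p1.ne'
            simpa using this))
        rw [← h5]
        congr 1 <;> ring
      have hDpr : D p r = D 1 0 := by
        have := hDinv p q r s hG 1 0 h10
        simpa using this
      have e1 := hCH l hl hlN hl6 p r hpr
      simp only [D, Finset.sum_sub_distrib] at hDsum hDpr
      simp only [Complex.sub_re, Complex.re_sum, Complex.mul_re, Complex.intCast_re,
        Complex.intCast_im, zero_mul, sub_zero]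
      linear_combination e1 - hDsum + (a l : ℝ) * hDpr)
    intro n
    have := key n
    exact sub_eq_zero.mp this
  obtain ⟨κ, hκ⟩ := hMONE N a hN ha g hg hgE
  refine ⟨κ, ?_⟩
  -- `D` is constant
  have hDconst : ∀ x y x' y' : ℤ, (x ≠ 0 ∨ y ≠ 0) → (x' ≠ 0 ∨ y' ≠ 0) → D x y = D x' y' := by
    rcases Nat.lt_or_ge 1 N with hN2 | hN1
    · -- a prime factor of `N + 1`
      obtain ⟨l, hl, hlN1⟩ := Nat.exists_prime_and_dvd (n := N + 1) (by omega)
      have hlN : ¬ l ∣ N := by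
        intro h
        have h1 : l ∣ 1 := (Nat.dvd_add_right h).mp hlN1
        exact hl.one_lt.ne' (Nat.dvd_one.mp h1)
      have hl6 : l ≤ N ^ 6 := by
        have h1 : l ≤ N + 1 := Nat.le_of_dvd (by omega) hlN1
        have h2 : N + 1 ≤ N ^ 2 := by nlinarith
        have h3 : N ^ 2 ≤ N ^ 6 := Nat.pow_le_pow_right (by omega) (by norm_num)
        omega
      have hstr := hSTRICT N l (fun k => (a k : ℂ)) (a l : ℂ) hN hl hlN ha.cusp
        ⟨1, by rw [ha.one]; simp⟩ (by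
          intro n
          have := ha.hecke l hl hlN n
          unfold Tl
          have h2 := congrArg (fun z : ℤ => (z : ℂ)) this
          push_cast at h2
          exact h2)
      have hne : (a l : ℝ) ^ 2 ≠ ((l : ℝ) + 1) ^ 2 := by
        have h1 : |(a l : ℝ)| < l + 1 := by
          have : ‖(a l : ℂ)‖ = |(a l : ℝ)| := Complex.norm_intCast _
          rw [← this]
          exact hstr
        have h2 : (a l : ℝ) ^ 2 < ((l : ℝ) + 1) ^ 2 := by
          rw [← sq_abs (a l : ℝ)]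
          exact pow_lt_pow_left₀ h1 (abs_nonneg _) (by norm_num)
        exact h2.ne
      refine hBDRY N l hN hl hlN D hD0 hDinv (a l : ℝ)
        (∑ t ∈ Tn l, C (t.1 * 1 + t.2.1 * 0) (t.2.2 * 0) - a l * C 1 0) hne ?_
      intro x y hxy
      have hTg : Tl l g = fun n => (a l : ℂ) * g n := funext (hgE l hl hlN hl6)
      have e1 := hCH l hl hlN hl6 x y hxy
      have e2 := dimo_hecke hFLIM hTF hHECKE hN hl hlN hg hxy
      have e3 : FC (Tl l g) x y = (a l : ℂ) * FC g x y := by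
        have hT := hHECKE N l g hN hl hlN hg
        have h5 := dimo_FC_lin hQDIF hFLIM hN hT hg (a l : ℂ) hxy
        have h6 : (fun n => Tl l g n - (a l : ℂ) * g n) = fun n => g n - 1 * g n := by
          funext n
          rw [hgE l hl hlN hl6 n]
          ring
        rw [h6, dimo_FC_lin hQDIF hFLIM hN hg hg 1 hxy] at h5
        linear_combination -h5
      rw [e3] at e2
      have e4 := congrArg Complex.re e2
      simp only [Complex.re_sum, Complex.mul_re, Complex.intCast_re, Complex.intCast_im, zero_mul,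
        sub_zero] at e4
      simp only [D, Finset.sum_sub_distrib]
      linear_combination e1 - e4
    · -- level one
      have hN1' : N = 1 := by omega
      have h1 : ∀ x y : ℤ, (x ≠ 0 ∨ y ≠ 0) → D x y = D 1 0 := by
        intro x y hxy
        have hgpos : (Int.gcd x y : ℤ) ≠ 0 := by
          intro h
          have := Int.gcd_eq_zero_iff.mp (by exact_mod_cast h)
          rcases hxy with h' | h'
          · exact h' this.1
          · exact h' this.2
        obtain ⟨x', hx'⟩ := Int.gcd_dvd_left (a := x) (b := y)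
        obtain ⟨y', hy'⟩ := Int.gcd_dvd_right (a := x) (b := y)
        have hbez := Int.gcd_eq_gcd_ab x y
        have hb2 : x' * Int.gcdA x y + y' * Int.gcdB x y = 1 := by
          have : (Int.gcd x y : ℤ) * (x' * Int.gcdA x y + y' * Int.gcdB x y)
              = (Int.gcd x y : ℤ) * 1 := by
            calc (Int.gcd x y : ℤ) * (x' * Int.gcdA x y + y' * Int.gcdB x y)
                = ((Int.gcd x y : ℤ) * x') * Int.gcdA x y
                  + ((Int.gcd x y : ℤ) * y') * Int.gcdB x y := by ring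
              _ = x * Int.gcdA x y + y * Int.gcdB x y := by rw [← hx', ← hy']
              _ = (Int.gcd x y : ℤ) * 1 := by rw [← hbez, mul_one]
          exact mul_left_cancel₀ hgpos this
        have hG : G0 N x' (-Int.gcdB x y) y' (Int.gcdA x y) := by
          refine ⟨by linarith, ?_⟩
          rw [hN1']
          simp
        have h5 := hDinv _ _ _ _ hG 1 0 (Or.inl one_ne_zero)
        have h6 : D x y = D x' y' := by
          have h9 := hD0 _ x' y' hgpos
          rw [← hx', ← hy'] at h9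
          exact h9
        rw [h6]
        simpa using h5
      intro x y x' y' h h'
      rw [h1 x y h, h1 x' y' h']
  -- values of `w`
  have hFCκ : ∀ x y : ℤ, (x ≠ 0 ∨ y ≠ 0) → FC g x y = κ * FC (fun k => (a k : ℂ)) x y := by
    intro x y hxy
    have h5 := dimo_FC_lin hQDIF hFLIM hN hg ha.cusp κ hxy
    have h6 : (fun n => g n - κ * (a n : ℂ)) = fun n => g n - 1 * g n := by
      funext n
      rw [hκ n]
      ring
    rw [h6, dimo_FC_lin hQDIF hFLIM hN hg hg 1 hxy] at h5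
    linear_combination -h5
  intro x
  induction x using Quotient.inductionOn with
  | h u =>
    obtain ⟨⟨c, d⟩, hu⟩ := u
    obtain ⟨c', d', ⟨m, n, hmn⟩, hc', hd'⟩ := (hSURJ N hN).1 c d hu
    have hdet : n * d' - (-m) * c' = 1 := by linarith
    have hU := dimo_uni N hdet
    have hq : (Quotient.mk (sPN N) ⟨(c, d), hu⟩ : PN N) = Quotient.mk (sPN N) ⟨(c', d'), hU⟩ := by
      apply Quotient.sound
      refine ⟨1, isCoprime_one_left, ?_, ?_⟩
      · simpa using hc'
      · simpa using hd'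
    have e1 := hCe n (-m) c' d' hdet
    have e2 := hv n (-m) c' d' hdet
    rw [dimo_ev w hU] at e1
    rw [dimo_ev v hU] at e2
    have hne1 : n ≠ 0 ∨ c' ≠ 0 := by
      by_contra hcon
      push Not at hcon
      rw [hcon.1, hcon.2] at hdet
      simp at hdet
    have hne2 : -m ≠ 0 ∨ d' ≠ 0 := by
      by_contra hcon
      push Not at hcon
      rw [hcon.1, hcon.2] at hdet
      simp at hdet
    show w (Quotient.mk (sPN N) ⟨(c, d), hu⟩) = (κ * v (Quotient.mk (sPN N) ⟨(c, d), hu⟩)).re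
    rw [hq, e1, e2]
    have e3 := hDconst n c' (-m) d' hne1 hne2
    simp only [D] at e3
    rw [hFCκ n c' hne1, hFCκ (-m) d' hne2] at e3
    rw [mul_sub, Complex.sub_re]
    linarith

theorem dimo_sign (hFLIM : ST_FLIM) (hSURJ : ST_SURJ) {N : ℕ} {a : ℕ → ℤ} {v : PN N → ℂ}
    (hN : 1 ≤ N) (ha : Newform N a)
    (hv : ∀ p x q y : ℤ, p * y - x * q = 1 →
      ev v q y = FC (fun k => (a k : ℂ)) p q - FC (fun k => (a k : ℂ)) x y)
    {ε : ℝ} {w : PN N → ℝ} (hw : Eall N a ε w) {κ : ℂ} (hκ : ∀ x, w x = (κ * v x).re) :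
    ∀ x, (κ * (starRingEnd ℂ) (v x)).re = ε * w x := by
  have hF := hFLIM N (fun k => (a k : ℂ)) hN ha.cusp
  have hconj := hF.2.2.2.2 (by intro k; simp)
  intro x
  induction x using Quotient.inductionOn with
  | h u =>
    obtain ⟨⟨c, d⟩, hu⟩ := u
    obtain ⟨c', d', ⟨m, n, hmn⟩, hc', hd'⟩ := (hSURJ N hN).1 c d hu
    have hdet : n * d' - (-m) * c' = 1 := by linarith
    have hdet2 : n * d' - m * (-c') = 1 := by linarith
    have hU := dimo_uni N hdet
    have hU2 := dimo_uni N hdet2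
    have hq : (Quotient.mk (sPN N) ⟨(c, d), hu⟩ : PN N) = Quotient.mk (sPN N) ⟨(c', d'), hU⟩ := by
      apply Quotient.sound
      refine ⟨1, isCoprime_one_left, ?_, ?_⟩
      · simpa using hc'
      · simpa using hd'
    have e2 := hv n (-m) c' d' hdet
    have e3 := hv n m (-c') d' hdet2
    have e4 := hw.1.sign c' d' hU
    rw [dimo_ev v hU] at e2
    rw [dimo_ev v hU2] at e3
    rw [dimo_ev w hU, dimo_ev w hU2, hκ] at e4
    show (κ * (starRingEnd ℂ) (v (Quotient.mk (sPN N) ⟨(c, d), hu⟩))).re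
      = ε * w (Quotient.mk (sPN N) ⟨(c, d), hu⟩)
    rw [hq, ← e4, e3, e2, map_sub, ← hconj, ← hconj]
    have h1 : FC (fun k => (a k : ℂ)) (-n) c' = FC (fun k => (a k : ℂ)) n (-c') := by
      have := hF.2.1 (-1) n (-c') (by norm_num)
      rw [← this]
      congr 1 <;> ring
    rw [h1, neg_neg]

theorem st_DIMO (hFAREY : ST_FAREY) (hCONN : ST_CONN) (hES : ST_ES) (hINJ : ST_INJ)
    (hFLIM : ST_FLIM) (hTF : ST_TF) (hTILE : ST_TILE) (hPERM : ST_PERM) (hHECKE : ST_HECKE)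
    (hMONE : ST_MONE) (hBDRY : ST_BDRY) (hSTRICT : ST_STRICT) (hSURJ : ST_SURJ)
    (hQDIF : ST_QDIF) : ST_DIMO := by
  intro N a v hN ha hv
  constructor
  · intro w hw
    obtain ⟨κ, hκ⟩ := dimo_core hFAREY hCONN hES hINJ hFLIM hTF hTILE hPERM hHECKE hMONE hBDRY
      hSTRICT hSURJ hQDIF hN ha hv hw
    have hs := dimo_sign hFLIM hSURJ hN ha hv hw hκ
    refine ⟨κ.re, ?_⟩
    intro x
    have h1 := hκ x
    have h2 := hs x
    simp only [Complex.mul_re, Complex.conj_re, Complex.conj_im] at h1 h2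
    linarith
  · intro w hw
    obtain ⟨κ, hκ⟩ := dimo_core hFAREY hCONN hES hINJ hFLIM hTF hTILE hPERM hHECKE hMONE hBDRY
      hSTRICT hSURJ hQDIF hN ha hv hw
    have hs := dimo_sign hFLIM hSURJ hN ha hv hw hκ
    refine ⟨-κ.im, ?_⟩
    intro x
    have h1 := hκ x
    have h2 := hs x
    simp only [Complex.mul_re, Complex.conj_re, Complex.conj_im] at h1 h2
    linarith

end Pool.Agent.Helper96.MP
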