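import Pool.Agent.Helper9.MP.Lat

set_option autoImplicit false

/-!
# INT: integrality and perfectness of the intersection form on the lattice of cusp forms
-/

namespace Pool.Agent.Helper96.MP

open Complex MeasureTheory Filter Topology
open scoped MatrixGroups

/-! ### bilinearity of the form -/

theorem int_Bs_add_left {N : ℕ} (hf : Finite (PN N)) (w w' v : PN N → ℝ) :
    Bs N (fun x => w x + w' x) v = Bs N w v + Bs N w' v := by
  unfold Bs
  rw [← mul_add, ← finsum_add_distrib (Set.toFinite _) (Set.toFinite _)]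
  congr 1
  refine finsum_congr fun x => ?_
  ring

theorem int_Bs_smul_left {N : ℕ} (c : ℝ) (w v : PN N → ℝ) :
    Bs N (fun x => c * w x) v = c * Bs N w v := by
  unfold Bs
  have e : ∑ᶠ x : PN N, ((fun x => c * w x) x * v (mv N x mR) - (fun x => c * w x) (mv N x mR) * v x) =
      c * ∑ᶠ x : PN N, (w x * v (mv N x mR) - w (mv N x mR) * v x) := by
    rw [← smul_eq_mul, smul_finsum]
    refine finsum_congr fun x => ?_
    simp only [smul_eq_mul]
    ring
  rw [e]
  ring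

theorem int_Bs_anti {N : ℕ} (w v : PN N → ℝ) : Bs N w v = - Bs N v w := by
  unfold Bs
  rw [← mul_neg, ← finsum_neg_distrib]
  congr 1
  refine finsum_congr fun x => ?_
  ring

theorem int_Bs_sub_left {N : ℕ} (hf : Finite (PN N)) (w w' v : PN N → ℝ) :
    Bs N (fun x => w x - w' x) v = Bs N w v - Bs N w' v := by
  have h := int_Bs_add_left hf w (fun x => (-1) * w' x) v
  rw [int_Bs_smul_left] at h
  have e : (fun x => w x - w' x) = fun x => w x + (-1) * w' x := by
    funext x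
    ring
  rw [e, h]
  ring

/-! ### potentials -/

theorem int_Pot_sub {N : ℕ} {w w' : PN N → ℝ} {C C' : ℤ → ℤ → ℝ} (h : Pot N w C) (h' : Pot N w' C') :
    Pot N (fun x => w x - w' x) (fun p q => C p q - C' p q) where
  hom := by
    intro k p q hk
    show C _ _ - C' _ _ = C p q - C' p q
    rw [h.hom k p q hk, h'.hom k p q hk]
  eqv := by
    intro p q r s hg x y hxy
    show C _ _ - C' _ _ = C x y - C' x y + ((C p r - C' p r) - (C 1 0 - C' 1 0))
    rw [h.eqv p q r s hg x y hxy, h'.eqv p q r s hg x y hxy]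
    ring
  dif := by
    intro g
    show w _ - w' _ = (C _ _ - C' _ _) - (C _ _ - C' _ _)
    rw [h.dif g, h'.dif g]
    ring

/-- two symbols which differ by a boundary symbol pair in the same way -/
theorem int_congr {N : ℕ} (hN : 1 ≤ N) (hf : Finite (PN N)) (hRAD : ST_RAD) {w w' v : PN N → ℝ} {D : ℤ → ℤ → ℝ}
    (hP : Pot N (fun x => w x - w' x) D) (hI : InvC N D) (hv : Sym N v) : Bs N w v = Bs N w' v := by
  have h := hRAD N _ v D hN hP hI hv
  rw [int_Bs_sub_left hf] at h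
  linarith

theorem int_congr' {N : ℕ} (hN : 1 ≤ N) (hf : Finite (PN N)) (hRAD : ST_RAD) {w w' v : PN N → ℝ} {D : ℤ → ℤ → ℝ}
    (hP : Pot N (fun x => w x - w' x) D) (hI : InvC N D) (hv : Sym N v) : Bs N v w = Bs N v w' := by
  rw [int_Bs_anti v w, int_Bs_anti v w', int_congr hN hf hRAD hP hI hv]

/-! ### orbits of cusps -/

/-- same orbit of `Γ₀(N)` on the projective line over the rationals -/
def int_rel (N : ℕ) (u u' : ℤ × ℤ) : Prop := ∃ k l p q r s : ℤ, k ≠ 0 ∧ l ≠ 0 ∧ G0 N p q r s ∧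
  k * u'.1 = l * (p * u.1 + q * u.2) ∧ k * u'.2 = l * (r * u.1 + s * u.2)

theorem int_rel_refl (N : ℕ) (u : ℤ × ℤ) : int_rel N u u :=
  ⟨1, 1, 1, 0, 0, 1, one_ne_zero, one_ne_zero, ⟨by ring, dvd_zero _⟩, by ring, by ring⟩

theorem int_rel_symm {N : ℕ} {u u' : ℤ × ℤ} (h : int_rel N u u') : int_rel N u' u := by
  obtain ⟨k, l, p, q, r, s, hk, hl, ⟨hd, hr⟩, h1, h2⟩ := h
  refine ⟨l, k, s, -q, -r, p, hl, hk, ⟨by linarith, (dvd_neg).2 hr⟩, ?_, ?_⟩
  · linear_combination (-s) * h1 + q * h2 - l * u.1 * hd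
  · linear_combination r * h1 - p * h2 - l * u.2 * hd

theorem int_rel_trans {N : ℕ} {u u' u'' : ℤ × ℤ} (h : int_rel N u u') (h' : int_rel N u' u'') : int_rel N u u'' := by
  obtain ⟨k, l, p, q, r, s, hk, hl, ⟨hd, hr⟩, h1, h2⟩ := h
  obtain ⟨k', l', p', q', r', s', hk', hl', ⟨hd', hr'⟩, h1', h2'⟩ := h'
  refine ⟨k * k', l * l', p' * p + q' * r, p' * q + q' * s, r' * p + s' * r, r' * q + s' * s,
    mul_ne_zero hk hk', mul_ne_zero hl hl', ⟨?_, ?_⟩, ?_, ?_⟩
  · linear_combination (p' * s' - q' * r') * hd + hd'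
  · exact dvd_add (Dvd.dvd.mul_right hr' p) (Dvd.dvd.mul_left hr s')
  · linear_combination k * h1' + l' * p' * h1 + l' * q' * h2
  · linear_combination k * h2' + l' * r' * h1 + l' * s' * h2

/-- the setoid of orbits -/
def int_set (N : ℕ) : Setoid (ℤ × ℤ) where
  r := int_rel N
  iseqv := ⟨int_rel_refl N, int_rel_symm, int_rel_trans⟩

/-- representative of an orbit -/
noncomputable def int_rp (N : ℕ) (u : ℤ × ℤ) : ℤ × ℤ := (Quotient.mk (int_set N) u).out

theorem int_rp_rel (N : ℕ) (u : ℤ × ℤ) : int_rel N (int_rp N u) u :=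
  Quotient.exact (s := int_set N) (Quotient.out_eq (Quotient.mk (int_set N) u))

theorem int_rp_eq {N : ℕ} {u u' : ℤ × ℤ} (h : int_rel N u u') : int_rp N u = int_rp N u' := by
  unfold int_rp
  rw [Quotient.sound (s := int_set N) h]

/-- lifting a form with integral periods to an integral symbol -/
theorem int_lift {N : ℕ} (hN : 1 ≤ N) (hCOS : ST_COS) (hMVB : ST_MVB) (hSYB : ST_SYB) (hFLIM : ST_FLIM)
    {b : ℕ → ℂ} (hb : b ∈ Lc N) : ∃ (w : PN N → ℤ) (D : ℤ → ℤ → ℝ), Sym N (fun x => (w x : ℝ)) ∧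
      Pot N (fun x => (w x : ℝ) - sy N b x) D ∧ InvC N D := by
  obtain ⟨hbC, hbI⟩ := hb
  obtain ⟨-, hH, hE, -, -⟩ := hFLIM N b hN hbC
  set D : ℤ → ℤ → ℝ := fun x y => - (FC b (int_rp N (x, y)).1 (int_rp N (x, y)).2).re with hD
  have hDH : Hom0 D := by
    intro k p q hk
    have h : int_rel N (p, q) (k * p, k * q) := ⟨1, k, 1, 0, 0, 1, one_ne_zero, hk, ⟨by ring, dvd_zero _⟩,
      by ring, by ring⟩
    rw [hD]
    show - (FC b (int_rp N (k * p, k * q)).1 (int_rp N (k * p, k * q)).2).re = _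
    rw [← int_rp_eq h]
  have hDI : InvC N D := by
    intro p q r s hg x y _
    have h : int_rel N (x, y) (p * x + q * y, r * x + s * y) := ⟨1, 1, p, q, r, s, one_ne_zero, one_ne_zero, hg,
      by ring, by ring⟩
    rw [hD]
    show - (FC b (int_rp N (p * x + q * y, r * x + s * y)).1 (int_rp N (p * x + q * y, r * x + s * y)).2).re = _
    rw [← int_rp_eq h]
  have hDE : EqC N D := by
    intro p q r s hg x y hxy
    have h1 := hDI p q r s hg x y hxy
    have h2 := hDI p q r s hg 1 0 (Or.inl one_ne_zero)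
    simp only [mul_one, mul_zero, add_zero] at h2
    rw [h1, h2]
    ring
  set C : ℤ → ℤ → ℝ := fun x y => (FC b x y).re + D x y with hC
  have hCH : Hom0 C := by
    intro k p q hk
    rw [hC]
    show (FC b (k * p) (k * q)).re + D (k * p) (k * q) = _
    rw [hH k p q hk, hDH k p q hk]
  have hCE : EqC N C := by
    intro p q r s hg x y hxy
    rw [hC]
    show (FC b (p * x + q * y) (r * x + s * y)).re + D (p * x + q * y) (r * x + s * y) =
      (FC b x y).re + D x y + (((FC b p r).re + D p r) - ((FC b 1 0).re + D 1 0))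
    rw [hE p q r s hg x y hxy, hDE p q r s hg x y hxy, add_re, sub_re]
    ring
  have hCZ : ∀ x y : ℤ, (x ≠ 0 ∨ y ≠ 0) → ∃ k : ℤ, C x y = k := by
    intro x y hxy
    obtain ⟨k, l, p, q, r, s, hk, hl, hg, h1, h2⟩ := int_rp_rel N (x, y)
    set u := int_rp N (x, y) with hu
    have hu0 : u.1 ≠ 0 ∨ u.2 ≠ 0 := by
      by_contra hc
      push Not at hc
      rw [hc.1, hc.2] at h1 h2
      simp only [mul_zero, add_zero, mul_eq_zero] at h1 h2
      rcases hxy with h | h
      · exact h (h1.resolve_left hk)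
      · exact h (h2.resolve_left hk)
    have e1 : FC b x y = FC b (p * u.1 + q * u.2) (r * u.1 + s * u.2) := by
      rw [← hH k x y hk, ← hH l (p * u.1 + q * u.2) (r * u.1 + s * u.2) hl]
      simp only at h1 h2
      rw [h1, h2]
    obtain ⟨m, hm⟩ := hbI p q r s hg
    refine ⟨m, ?_⟩
    rw [hC]
    show (FC b x y).re + - (FC b u.1 u.2).re = m
    rw [e1, hE p q r s hg u.1 u.2 hu0, add_re, ← hm]
    ring
  obtain ⟨w, hw⟩ := (hMVB N hN).2.2.2.2 C hCH hCE
  have hwS := (hMVB N hN).2.2.2.1 w C hw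
  have hwZ : ∀ x, ∃ k : ℤ, w x = k := by
    intro x
    have h1 := hw.dif (rep N x)
    rw [(hCOS N hN).1 x] at h1
    have hdet := (rep N x).2
    rw [Matrix.det_fin_two] at hdet
    obtain ⟨k, hk⟩ := hCZ (rep N x 0 0) (rep N x 1 0) (by
      by_contra hc
      push Not at hc
      have e1 : (rep N x : Matrix (Fin 2) (Fin 2) ℤ) 0 0 = 0 := hc.1
      have e2 : (rep N x : Matrix (Fin 2) (Fin 2) ℤ) 1 0 = 0 := hc.2
      rw [e1, e2] at hdet
      simp at hdet)
    obtain ⟨l, hl⟩ := hCZ (rep N x 0 1) (rep N x 1 1) (by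
      by_contra hc
      push Not at hc
      have e1 : (rep N x : Matrix (Fin 2) (Fin 2) ℤ) 0 1 = 0 := hc.1
      have e2 : (rep N x : Matrix (Fin 2) (Fin 2) ℤ) 1 1 = 0 := hc.2
      rw [e1, e2] at hdet
      simp at hdet)
    exact ⟨k - l, by rw [h1, hk, hl]; push_cast; ring⟩
  choose w' hw' using hwZ
  have ew : w = fun x => (w' x : ℝ) := funext hw'
  refine ⟨w', D, ?_, ?_, hDI⟩
  · rw [← ew]
    exact hwS
  · have h1 := int_Pot_sub hw (hSYB N b hN hbC)
    have e1 : (fun p q => C p q - (FC b p q).re) = D := by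
      funext p q
      rw [hC]
      ring
    rw [e1, ew] at h1
    exact h1

theorem int_sl {N : ℕ} {p q r s : ℤ} (h : G0 N p q r s) : ∃ γ ∈ CongruenceSubgroup.Gamma0 N,
    γ 0 0 = p ∧ γ 0 1 = q ∧ γ 1 0 = r ∧ γ 1 1 = s := by
  refine ⟨⟨!![p, q; r, s], by rw [Matrix.det_fin_two_of]; exact h.1⟩, ?_, rfl, rfl, rfl, rfl⟩
  rw [CongruenceSubgroup.Gamma0_mem]
  show ((r : ℤ) : ZMod N) = 0
  exact (ZMod.intCast_zmod_eq_zero_iff_dvd r N).2 h.2

/-- the module INT -/
theorem st_INT (hDUAL : ST_DUAL) (hRAD : ST_RAD) (hHALF : ST_HALF) (hMVB : ST_MVB) (hSYB : ST_SYB) (hES : ST_ES)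
    (hCONN : ST_CONN) (hFCL : ST_FCL) (hFLIM : ST_FLIM) (hCOS : ST_COS) (hPNF : ST_PNF) : ST_INT := by
  intro N hN
  have hf : Finite (PN N) := (hPNF N hN).1
  have hsym : ∀ b : ℕ → ℂ, Cusp N b → Sym N (sy N b) := fun b hb =>
    (hMVB N hN).2.2.2.1 _ _ (hSYB N b hN hb)
  constructor
  · intro b hb b' hb'
    obtain ⟨w, D, hw, hP, hI⟩ := int_lift hN hCOS hMVB hSYB hFLIM hb
    obtain ⟨w', D', hw', hP', hI'⟩ := int_lift hN hCOS hMVB hSYB hFLIM hb'
    obtain ⟨k, hk⟩ := hHALF N w w' hN hw hw'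
    refine ⟨k, ?_⟩
    rw [← hk]
    unfold Bc
    rw [int_congr hN hf hRAD hP hI hw', int_congr' hN hf hRAD hP' hI' (hsym b hb.1)]
  · intro y hy hyI
    obtain ⟨-, h2c, -, h2f, -, -⟩ := hFCL N y y 2 hN hy hy
    refine ⟨h2c, ?_⟩
    intro p q r s hg
    obtain ⟨γ, hγ, e1, -, e3, -⟩ := int_sl hg
    obtain ⟨v, hv, hvB⟩ := hDUAL N hN γ hγ
    obtain ⟨C, hC⟩ := (hMVB N hN).2.2.1 _ hv
    -- integral differences
    have hCZ : ∀ x z : ℤ, (x ≠ 0 ∨ z ≠ 0) → ∃ k : ℤ, C x z - C 1 0 = k := by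
      intro x z hxz
      have h1 := hCONN ℝ (Int.castAddHom ℝ).range C hC.hom (by
        intro p x q y hd
        have h2 := hC.dif ⟨!![p, x; q, y], by rw [Matrix.det_fin_two_of]; exact hd⟩
        refine ⟨v (cls N ⟨!![p, x; q, y], by rw [Matrix.det_fin_two_of]; exact hd⟩), ?_⟩
        exact h2) x z hxz
      obtain ⟨k, hk⟩ := h1
      exact ⟨k, hk.symm⟩
    obtain ⟨b, hb, hbp⟩ := hES N C hN hC.hom hC.eqv
    have hbL : b ∈ Lc N := by
      refine ⟨hb, fun p q r s hg => ?_⟩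
      rw [hbp p q r s hg]
      refine hCZ p r ?_
      by_contra hc
      push Not at hc
      have := hg.1
      rw [hc.1, hc.2] at this
      simp at this
    obtain ⟨-, -, hE, -, -⟩ := hFLIM N b hN hb
    have hP := int_Pot_sub hC (hSYB N b hN hb)
    have hI : InvC N (fun p q => C p q - (FC b p q).re) := by
      intro p q r s hg x z hxz
      show C _ _ - (FC b _ _).re = C x z - (FC b x z).re
      have h1 := hbp p q r s hg
      rw [hC.eqv p q r s hg x z hxz, hE p q r s hg x z hxz, add_re, h1]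
      ring
    obtain ⟨k, hk⟩ := hyI b hbL
    refine ⟨k, ?_⟩
    rw [← hk]
    unfold Bc
    rw [← int_congr' hN hf hRAD hP hI (hsym y hy), hvB _ _ (hSYB N y hN hy), e1, e3, h2f, h2f,
      sub_re, mul_re, mul_re]
    simp
    ring

end Pool.Agent.Helper96.MP
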